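import Pool.Agent.Helper96.GU.StF

set_option autoImplicit false

/-!
# Project GF, module CHO (the choice of the step)
-/

namespace Pool.Agent.Helper42.GF

open Pool.Agent.Helper96.UT hiding StTOP TopV TopE tht Bd VC EC
open Pool.Agent.Helper96.GU

variable {α : Type}

private theorem exq {Z : Cyc α} {j j' : ℤ} (h : (Z.n : ℤ) ∣ j' - j) : ∃ q : ℤ, j' = j + q * Z.n := by
  obtain ⟨q, hq⟩ := h
  exact ⟨q, by rw [mul_comm, ← hq]; ring⟩

private theorem sg_tl (r : FreeMonoid (α × Bool)) {Z : Cyc α} {j j' : ℤ} (h : (Z.n : ℤ) ∣ j' - j) :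
    sg r Z (tl Z j') = sg r Z (tl Z j) := by
  obtain ⟨q, rfl⟩ := exq h
  rw [tl_add_mul, sg_add_mul]

private theorem eta_per {Z : Cyc α} (η : Stk Z) (i q : ℤ) : η.η (i + q * Z.n) = η.η i := by
  induction q with
  | zero => simp
  | succ q ih =>
    rw [← ih, ← η.per (i + q * Z.n)]
    congr 1
    ring
  | pred q ih =>
    rw [← ih, ← η.per (i + (-(q : ℤ) - 1) * Z.n)]
    congr 1
    ring

private theorem tht_per {Z : Cyc α} (η : Stk Z) {j j' : ℤ} (h : (Z.n : ℤ) ∣ j' - j) :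
    tht Z η.η j' = tht Z η.η j := by
  obtain ⟨q, rfl⟩ := exq h
  unfold tht
  rw [Z.per_mul]
  split
  · exact eta_per η j q
  · rw [show j + q * (Z.n : ℤ) + 1 = (j + 1) + q * Z.n by ring]
    exact eta_per η (j + 1) q

private theorem tht_neg {Z : Cyc α} (η : Stk Z) (j : ℤ) :
    tht Z (negStk η).η j = - tht Z η.η j := by
  unfold tht
  split
  · rfl
  · rfl

private theorem Ge_refl' (r : FreeMonoid (α × Bool)) {Z : Cyc α} {j k : ℤ}
    (h : sg r Z (tl Z j) = sg r Z (tl Z k)) : Ge r Z (tl Z j) (tl Z k) :=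
  ⟨1, ⟨1, one_mul 1⟩, by rw [one_mul, h]⟩

private theorem ex_max (r : FreeMonoid (α × Bool)) (Z : Cyc α) (a : α) (i₁ i₂ : ℤ)
    (h1 : (Z.c i₁).1 = a) (h2 : (Z.c i₂).1 = a)
    (h : ∀ j : ℤ, (Z.c j).1 = a → (Z.n : ℤ) ∣ j - i₁ ∨ (Z.n : ℤ) ∣ j - i₂) :
    ∃ m i : ℤ, (Z.c m).1 = a ∧ (∀ j : ℤ, (Z.c j).1 = a → (Z.n : ℤ) ∣ j - m ∨ (Z.n : ℤ) ∣ j - i) ∧
      Mx r Z m := by
  by_cases hP : Ge r Z (tl Z i₂) (tl Z i₁) → Ge r Z (tl Z i₁) (tl Z i₂)
  · refine ⟨i₁, i₂, h1, h, ?_⟩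
    intro j hj hge
    rcases h j (hj.trans h1) with hd | hd
    · exact Ge_refl' r (sg_tl r hd).symm
    · have e := sg_tl r hd
      have hge' : Ge r Z (tl Z i₂) (tl Z i₁) := by
        obtain ⟨x, hx, hxe⟩ := hge
        exact ⟨x, hx, by rw [← e]; exact hxe⟩
      obtain ⟨x, hx, hxe⟩ := hP hge'
      exact ⟨x, hx, by rw [e]; exact hxe⟩
  · have hn : ¬ Ge r Z (tl Z i₁) (tl Z i₂) := fun hh => hP (fun _ => hh)
    refine ⟨i₂, i₁, h2, fun j hj => (h j hj).symm, ?_⟩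
    intro j hj hge
    rcases h j (hj.trans h2) with hd | hd
    · exfalso
      apply hn
      obtain ⟨x, hx, hxe⟩ := hge
      exact ⟨x, hx, by rw [← sg_tl r hd]; exact hxe⟩
    · exact Ge_refl' r (sg_tl r hd).symm

theorem tCHO : Pool.Agent.Helper96.UT.StSTK → StCHO := by
  intro hSTK α r Z a i₁ i₂ h1 h2 h
  obtain ⟨m, i, hm, hmi, hMx⟩ := ex_max r Z a i₁ i₂ h1 h2 h
  obtain ⟨η⟩ := hSTK α Z
  rcases le_total (tht Z η.η m) (tht Z η.η i) with hle | hle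
  · refine ⟨η, m, ?_, hMx⟩
    intro j hj
    rcases hmi j (hj.trans hm) with hd | hd
    · rw [tht_per η hd]
    · rw [tht_per η hd]; exact hle
  · refine ⟨negStk η, m, ?_, hMx⟩
    intro j hj
    rw [tht_neg, tht_neg]
    rcases hmi j (hj.trans hm) with hd | hd
    · rw [tht_per η hd]
    · rw [tht_per η hd]; omega

end Pool.Agent.Helper42.GF
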